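import Pool.Agent.D0H73.OP.Stm

/-! Tools for the homotopies of project OP. -/

set_option autoImplicit false

namespace Pool.Agent.D0H35.OP

open Finset Pool.Agent.D0H73.OP

theorem cis_cont : Continuous cis := by
  unfold cis
  fun_prop

theorem cis_per (θ : ℝ) : cis (θ + 2 * Real.pi) = cis θ := by
  unfold cis
  push_cast
  rw [add_mul, Complex.exp_add, Complex.exp_two_pi_mul_I, mul_one]

theorem cis_norm (θ : ℝ) : ‖cis θ‖ = 1 := Complex.norm_exp_ofReal_mul_I θ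

theorem sv_norm {n k : ℕ} {z ζ : ℂ} (hz : ‖z‖ ≤ 1) (hζ : ‖ζ‖ ≤ 1) (i : Fin n) : ‖sv k z ζ i‖ ≤ 1 := by
  unfold sv
  split_ifs
  · simp
  · exact hz
  · exact hζ
  · simp

section
variable {p : ℕ} [Fact p.Prime] {N : ℕ → ℕ} {n : ℕ}

theorem Ph_norm {k : ℕ} {d : (i : Fin n) → Pool.Agent.V1192.UOD.V p (N i) → ℕ} {χ : H p N n → ℂ}
    (hχ : IsChr k χ) {s : Fin n → ℂ} (hs : ∀ i, ‖s i‖ ≤ 1) (g : H p N n) : ‖Ph d χ s g‖ ≤ 1 := by
  unfold Ph
  rw [norm_mul, hχ.norm, one_mul, norm_prod]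
  refine Finset.prod_le_one (fun i _ => norm_nonneg _) fun i _ => ?_
  rw [norm_pow]
  exact pow_le_one₀ (norm_nonneg _) (hs i)

theorem ap_norm (y : H p N n → ℂ) (F : H p N n → ℂ) (hF : ∀ g, ‖F g‖ ≤ 1) (hy : ∑ g, ‖y g‖ ≤ 3) :
    ‖ap y F‖ ≤ 3 := by
  unfold ap
  refine (norm_sum_le _ _).trans (le_trans (Finset.sum_le_sum fun g _ => ?_) hy)
  rw [norm_mul]
  exact mul_le_of_le_one_right (norm_nonneg _) (hF g)

theorem F_cont (x : H p N n → ℂ) (d : (i : Fin n) → Pool.Agent.V1192.UOD.V p (N i) → ℕ) (χ : H p N n → ℂ)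
    (k : ℕ) {T : Type} [TopologicalSpace T] (z ζ : T → ℂ) (hz : Continuous z) (hζ : Continuous ζ) :
    Continuous (fun q => ap x (Ph d χ (sv k (z q) (ζ q)))) := by
  unfold ap Ph
  refine continuous_finsetSum _ fun g _ => continuous_const.mul (continuous_const.mul
    (continuous_finsetProd _ fun i _ => Continuous.pow ?_ _))
  unfold sv
  split_ifs
  · exact continuous_const
  · exact hz
  · exact hζ
  · exact continuous_const

end

end Pool.Agent.D0H35.OP
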