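import Pool.Agent.D0H35.OP.Base

/-! Module STEP of project OP. -/

set_option autoImplicit false

namespace Pool.Agent.D0H35.OP

open Finset Pool.Agent.D0H73.OP

/-- **STEP.** -/
theorem t_STEP : S_TOP → S_NUM → S_LOW → S_CMP → S_STEP := by
  intro hT hNUM hLOW hCMP p _ N l x y d m hN hD hF k hk hS
  obtain ⟨hT1, hT2, -, -⟩ := hT
  obtain ⟨hw, -⟩ := hNUM p
  obtain ⟨χ, hχ, ⟨r, hr, hrb⟩, hWd⟩ := hS
  obtain ⟨χ', hχ', hr', hcmp⟩ := hCMP p N l x y d m hN hD k χ hk hχ r hr hrb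
  refine ⟨χ', hχ', hr', ?_⟩
  have hp2 : (2 : ℝ) ≤ p := by exact_mod_cast (Fact.out : p.Prime).two_le
  obtain ⟨hw0, -, hw1⟩ := hw k
  obtain ⟨hv0, hv1, -⟩ := hw (k + 1)
  set W : ℝ := w p k with hWdef
  set U : ℝ := w p (k + 1) with hUdef
  have hrW : |r| ≤ W / 16 := by
    refine hrb.trans ?_
    apply div_le_div_of_nonneg_left hw0.le (by norm_num) (by linarith)
  set q : ℂ := ((-r / W : ℝ) : ℂ) with hq
  have hqn : ‖q‖ ≤ 1 / 16 := by
    rw [hq, Complex.norm_real, Real.norm_eq_abs, abs_div, abs_neg, abs_of_pos hw0, div_le_iff₀ hw0]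
    linarith
  have hWC : (W : ℂ) ≠ 0 := by exact_mod_cast hw0.ne'
  have hWq : (W : ℂ) * q = -(r : ℂ) := by
    rw [hq]
    push_cast
    field_simp
  -- the homotopy
  set Z : ℝ × ℝ → ℂ := fun a => ((1 - a.1 : ℝ) : ℂ) * (cis a.2 / 2) + (a.1 : ℂ) * q with hZ
  set Y : ℝ × ℝ → ℂ := fun a => (a.1 : ℂ) * (cis a.2 / 2) with hY
  have hZc : Continuous Z := by
    rw [hZ]
    have := cis_cont
    fun_prop
  have hYc : Continuous Y := by
    rw [hY]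
    have := cis_cont
    fun_prop
  have hZn : ∀ s θ : ℝ, 0 ≤ s → s ≤ 1 → ‖Z (s, θ)‖ ≤ 1 / 2 := by
    intro s θ h0 h1
    change ‖((1 - s : ℝ) : ℂ) * (cis θ / 2) + (s : ℂ) * q‖ ≤ 1 / 2
    refine (norm_add_le _ _).trans ?_
    rw [norm_mul, norm_mul, norm_div, cis_norm, Complex.norm_real, Complex.norm_real,
      Real.norm_of_nonneg (by linarith : (0 : ℝ) ≤ 1 - s), Real.norm_of_nonneg h0]
    have h2 : ‖(2 : ℂ)‖ = 2 := by simp
    rw [h2]
    nlinarith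
  have hYn : ∀ s θ : ℝ, 0 ≤ s → s ≤ 1 → ‖Y (s, θ)‖ ≤ 1 / 2 := by
    intro s θ h0 h1
    change ‖(s : ℂ) * (cis θ / 2)‖ ≤ 1 / 2
    rw [norm_mul, norm_div, cis_norm, Complex.norm_real, Real.norm_of_nonneg h0]
    have h2 : ‖(2 : ℂ)‖ = 2 := by simp
    rw [h2]
    linarith
  -- the lower bound of the product
  have hprod : ∀ s θ : ℝ, 0 ≤ s → s ≤ 1 →
      U ^ 2 / 8 ≤ ‖ap x (Ph d χ (sv k (Z (s, θ)) (Y (s, θ)))) * ap y (Ph d χ (sv k (Z (s, θ)) (Y (s, θ))))‖ := by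
    intro s θ h0 h1
    have h3 := hLOW p N l x y d m hN hD hF k χ hk.le hχ (Z (s, θ)) (Y (s, θ)) (hZn s θ h0 h1) (hYn s θ h0 h1)
    rw [if_neg hk.ne, add_zero] at h3
    have h4 : tt k χ + (w p k : ℂ) * Z (s, θ) + (w p (k + 1) : ℂ) * Y (s, θ) =
        (((1 - s) * W + s * U : ℝ) : ℂ) * (cis θ / 2) + (((1 - s) * r : ℝ) : ℂ) := by
      change tt k χ + (W : ℂ) * (((1 - s : ℝ) : ℂ) * (cis θ / 2) + (s : ℂ) * q) +
        (U : ℂ) * ((s : ℂ) * (cis θ / 2)) = _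
      have h5 : (W : ℂ) * (((1 - s : ℝ) : ℂ) * (cis θ / 2) + (s : ℂ) * q) =
          (W : ℂ) * (((1 - s : ℝ) : ℂ) * (cis θ / 2)) + (s : ℂ) * ((W : ℂ) * q) := by ring
      rw [hr, h5, hWq]
      push_cast
      ring
    rw [h4] at h3
    have h6 : 7 / 16 * U ≤ ‖(((1 - s) * W + s * U : ℝ) : ℂ) * (cis θ / 2) + (((1 - s) * r : ℝ) : ℂ)‖ := by
      have h7 : ‖(((1 - s) * W + s * U : ℝ) : ℂ) * (cis θ / 2)‖ = ((1 - s) * W + s * U) / 2 := by
        have h2 : ‖(2 : ℂ)‖ = 2 := by simp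
        rw [norm_mul, norm_div, cis_norm, Complex.norm_real, h2, Real.norm_of_nonneg (by
          have : 0 ≤ (1 - s) * W := mul_nonneg (by linarith) hw0.le
          have : 0 ≤ s * U := mul_nonneg h0 hv0.le
          linarith)]
        ring
      have h8 : ‖(((1 - s) * r : ℝ) : ℂ)‖ ≤ (1 - s) * (W / 16) := by
        rw [Complex.norm_real, Real.norm_eq_abs, abs_mul, abs_of_nonneg (by linarith : (0 : ℝ) ≤ 1 - s)]
        exact mul_le_mul_of_nonneg_left hrW (by linarith)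
      have h9 := norm_sub_le ((((1 - s) * W + s * U : ℝ) : ℂ) * (cis θ / 2) + (((1 - s) * r : ℝ) : ℂ))
        (((1 - s) * r : ℝ) : ℂ)
      rw [add_sub_cancel_right, h7] at h9
      have h10 : U ≤ W := by linarith
      nlinarith [mul_nonneg (by linarith : (0 : ℝ) ≤ 1 - s) (by linarith : 0 ≤ W - U)]
    have h11 : (7 / 16 * U) ^ 2 ≤
        ‖((((1 - s) * W + s * U : ℝ) : ℂ) * (cis θ / 2) + (((1 - s) * r : ℝ) : ℂ)) ^ 2‖ := by
      rw [norm_pow]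
      exact pow_le_pow_left₀ (by positivity) h6 2
    set P : ℂ := ap x (Ph d χ (sv k (Z (s, θ)) (Y (s, θ)))) * ap y (Ph d χ (sv k (Z (s, θ)) (Y (s, θ)))) with hP
    set Q : ℂ := ((((1 - s) * W + s * U : ℝ) : ℂ) * (cis θ / 2) + (((1 - s) * r : ℝ) : ℂ)) ^ 2 with hQ
    have h12 : ‖Q‖ ≤ ‖P‖ + ‖P - Q‖ := by
      have := norm_sub_le P (P - Q)
      rwa [sub_sub_cancel] at this
    have h13 : ‖P - Q‖ ≤ U ^ 2 / 50 := h3
    nlinarith [sq_nonneg U]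
  have hU2 : 0 < U ^ 2 := by positivity
  have hpos : ∀ s θ : ℝ, 0 ≤ s → s ≤ 1 → U ^ 2 / 24 ≤ ‖ap x (Ph d χ (sv k (Z (s, θ)) (Y (s, θ))))‖ := by
    intro s θ h0 h1
    have h3 := hprod s θ h0 h1
    rw [norm_mul] at h3
    have h4 : ‖ap y (Ph d χ (sv k (Z (s, θ)) (Y (s, θ))))‖ ≤ 3 :=
      ap_norm y _ (Ph_norm hχ (sv_norm (by linarith [hZn s θ h0 h1]) (by linarith [hYn s θ h0 h1]))) hF.ny
    have h5 := mul_le_mul_of_nonneg_left h4 (norm_nonneg (ap x (Ph d χ (sv k (Z (s, θ)) (Y (s, θ))))))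
    linarith
  have hcper : ∀ θ : ℝ, cis (θ + 2 * Real.pi) = cis θ := cis_per
  have hW1 : Wd (fun θ => ap x (Ph d χ (sv k (Z (1, θ)) (Y (1, θ))))) := by
    refine hT2 (fun s θ => ap x (Ph d χ (sv k (Z (s, θ)) (Y (s, θ))))) ?_ ?_ ?_ ?_
    · exact F_cont x d χ k Z Y hZc hYc
    · intro s θ
      simp only [hZ, hY, hcper]
    · intro s h0 h1 θ h
      have := hpos s θ h0 h1
      rw [h, norm_zero] at this
      linarith
    · have e : (fun θ => ap x (Ph d χ (sv k (Z (0, θ)) (Y (0, θ))))) =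
          fun θ => ap x (Ph d χ (sv k (cis θ / 2) 0)) := by
        funext θ
        simp only [hZ, hY]
        simp
      rw [e]
      exact hWd
  refine hT1 (fun θ => ap x (Ph d χ (sv k (Z (1, θ)) (Y (1, θ))))) _ ?_ ?_ ?_ ?_ ?_ hW1
  · exact F_cont x d χ k (fun θ => Z (1, θ)) (fun θ => Y (1, θ)) (hZc.comp (by fun_prop)) (hYc.comp (by fun_prop))
  · exact F_cont x d χ' (k + 1) (fun θ => cis θ / 2) (fun _ => 0) (cis_cont.div_const 2) continuous_const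
  · intro θ
    simp only [hZ, hY, hcper]
  · intro θ
    simp only [hcper]
  · intro θ
    have h3 := hpos 1 θ zero_le_one le_rfl
    have h4 := hcmp (cis θ / 2) (by
      have h2 : ‖(2 : ℂ)‖ = 2 := by simp
      rw [norm_div, cis_norm, h2])
    have e1 : Z (1, θ) = q := by
      simp only [hZ]
      simp
    have e2 : Y (1, θ) = cis θ / 2 := by
      simp only [hY]
      simp
    rw [e1, e2] at h3 ⊢
    refine lt_of_le_of_lt h4 (lt_of_lt_of_le ?_ h3)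
    change U ^ 2 / 100 < U ^ 2 / 24
    linarith

end Pool.Agent.D0H35.OP
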